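import Mathlib
import Pool.Agent.MP_f251cb_gt.Final

namespace Pool.Agent.Results.MP_f251cb_gt.BorelMengerCountable

open Pool.Agent.MP_f251cb_gt.Fc

/-- There is a model of ZFC in which every subset `X` of the line `(R, l)` that satisfies the
selection principle for Borel `γ`-covers and Borel covers is countable. -/
theorem result : ∃ (M : Type 2) (E : M → M → Prop), ZFC E ∧
    ∀ w R l X, IOmega E w → ILine E w R l → ISub E X R → IS1 E w R l X → ILe E X w :=
  exists_zfc_model

end Pool.Agent.Results.MP_f251cb_gt.BorelMengerCountable
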